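import Pool.Agent.ZTR.Kl

/-!
# ZTR/Star: every colouring of the edges of `K_{A,B}` by a group of order `s`, `|A| + |B| = 2 s`, `|A|`, `|B|` odd,
has a zero-sum double star with `s` edges
-/

namespace Pool.Agent.ZTR

open Finset

set_option linter.style.haveILetI false

open Classical in
/-- the number of members of `g` outside the coset `x + K` -/
noncomputable def outl {G X : Type*} [AddCommGroup G] [Fintype X] (g : X → G) (K : AddSubgroup G)
    (x : G) : ℕ := (Finset.univ.filter (fun i => g i - x ∉ K)).card

open Classical in
/-- the members which are outside a coset with few outliers -/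
noncomputable def covd {G X : Type*} [AddCommGroup G] [Fintype G] [Fintype X] (g : X → G) :
    Finset X := Finset.univ.filter (fun u => ∃ (K : AddSubgroup G) (x : G), g u - x ∉ K ∧
      2 * Fintype.card G * outl g K x ≤ Fintype.card X * K.index)

private theorem index_le' {G : Type*} [AddCommGroup G] [Fintype G] (K : AddSubgroup G) :
    K.index ≤ Fintype.card G := by
  have := K.index_dvd_card
  rw [Nat.card_eq_fintype_card] at this
  exact Nat.le_of_dvd Fintype.card_pos this

private theorem two_index_le {G : Type*} [AddCommGroup G] [Fintype G] {H K : AddSubgroup G}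
    (h : H ≤ K) (h2 : ¬ K ≤ H) : 2 * K.index ≤ H.index := by
  rw [← AddSubgroup.relIndex_mul_index h]
  refine Nat.mul_le_mul_right _ ?_
  have r0 : H.relIndex K ≠ 0 := by
    intro r
    have := AddSubgroup.relIndex_mul_index h
    rw [r, zero_mul] at this
    exact H.index_ne_zero_of_finite this.symm
  have r1 : H.relIndex K ≠ 1 := by
    intro r
    rw [AddSubgroup.relIndex_eq_one] at r
    exact h2 r
  omega

theorem cov {G X : Type*} [AddCommGroup G] [Fintype G] [Fintype X] (g : X → G)
    (hodd : Odd (Fintype.card X)) : 2 * (covd g).card + 1 ≤ Fintype.card X := by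
  classical
  set s := Fintype.card G with hs
  set N := Fintype.card X with hN
  have hspos : 0 < s := Fintype.card_pos
  let D : Set (AddSubgroup G × G) := {p | 2 * s * outl g p.1 p.2 ≤ N * p.1.index}
  have hD0 : ((⊤ : AddSubgroup G), (0 : G)) ∈ D := by
    change 2 * s * outl g ⊤ 0 ≤ N * _
    have : outl g (⊤ : AddSubgroup G) 0 = 0 := by
      unfold outl
      rw [Finset.card_eq_zero, Finset.filter_eq_empty_iff]
      intro i _
      simp
    rw [this, mul_zero]
    exact Nat.zero_le _
  haveI : Nonempty D := ⟨⟨_, hD0⟩⟩
  obtain ⟨⟨⟨K0, x0⟩, hD⟩, hmax⟩ := Finite.exists_max (fun p : D => p.1.1.index)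
  have hD' : 2 * s * outl g K0 x0 ≤ N * K0.index := hD
  have hmax' : ∀ (K : AddSubgroup G) (x : G), 2 * s * outl g K x ≤ N * K.index →
      K.index ≤ K0.index := fun K x h => hmax ⟨(K, x), h⟩
  have hhalf : ∀ (K : AddSubgroup G) (x : G), 2 * s * outl g K x ≤ N * K.index →
      2 * outl g K x + 1 ≤ N := by
    intro K x h
    have h1 := index_le' K
    have h2 : s * (2 * outl g K x) ≤ s * N := by
      calc s * (2 * outl g K x) = 2 * s * outl g K x := by ring
        _ ≤ N * K.index := h
        _ ≤ N * s := Nat.mul_le_mul_left _ h1
        _ = s * N := mul_comm _ _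
    have h3 : 2 * outl g K x ≤ N := Nat.le_of_mul_le_mul_left h2 hspos
    obtain ⟨m, hm⟩ := hodd
    omega
  have hsub : covd g ⊆ Finset.univ.filter (fun i => g i - x0 ∉ K0) := by
    intro u hu
    unfold covd at hu
    rw [Finset.mem_filter] at hu
    obtain ⟨_, K, x, hux, hKx⟩ := hu
    rw [Finset.mem_filter]
    refine ⟨Finset.mem_univ _, ?_⟩
    -- a common member
    have hz : ∃ z, g z - x ∈ K ∧ g z - x0 ∈ K0 := by
      by_contra hno
      push Not at hno
      have h1 : (Finset.univ : Finset X) ⊆ Finset.univ.filter (fun i => g i - x ∉ K) ∪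
          Finset.univ.filter (fun i => g i - x0 ∉ K0) := by
        intro i _
        rw [Finset.mem_union, Finset.mem_filter, Finset.mem_filter]
        by_cases hi : g i - x ∈ K
        · exact Or.inr ⟨Finset.mem_univ _, hno i hi⟩
        · exact Or.inl ⟨Finset.mem_univ _, hi⟩
      have h2 := (Finset.card_le_card h1).trans (Finset.card_union_le _ _)
      rw [Finset.card_univ] at h2
      have h3 := hhalf K x hKx
      have h4 := hhalf K0 x0 hD'
      unfold outl at h3 h4
      omega
    obtain ⟨z, hz1, hz2⟩ := hz
    have hzu : g u - g z ∉ K := by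
      intro h
      apply hux
      have : g u - x = (g u - g z) + (g z - x) := by abel
      rw [this]
      exact K.add_mem h hz1
    have hgoal : ∀ hh : K0 ≤ K, g u - x0 ∉ K0 := by
      intro hh h
      apply hzu
      have : g u - g z = (g u - x0) - (g z - x0) := by abel
      rw [this]
      exact hh (K0.sub_mem h hz2)
    by_cases hc1 : K0 ≤ K
    · exact hgoal hc1
    · exfalso
      by_cases hc2 : K ≤ K0
      · have h1 := two_index_le hc2 hc1
        have h2 := hmax' K x hKx
        have h3 := Nat.pos_of_ne_zero K0.index_ne_zero_of_finite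
        omega
      · have h1 : 2 * K0.index ≤ (K0 ⊓ K).index :=
          two_index_le inf_le_left (fun h => hc1 (h.trans inf_le_right))
        have h2 : 2 * K.index ≤ (K0 ⊓ K).index :=
          two_index_le inf_le_right (fun h => hc2 (h.trans inf_le_left))
        have h3 : outl g (K0 ⊓ K) (g z) ≤ outl g K x + outl g K0 x0 := by
          unfold outl
          refine (Finset.card_le_card ?_).trans (Finset.card_union_le _ _)
          intro i hi
          rw [Finset.mem_filter] at hi
          rw [Finset.mem_union, Finset.mem_filter, Finset.mem_filter]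
          by_cases hi1 : g i - x ∈ K
          · refine Or.inr ⟨Finset.mem_univ _, fun hi2 => hi.2 ⟨?_, ?_⟩⟩
            · have : g i - g z = (g i - x0) - (g z - x0) := by abel
              rw [SetLike.mem_coe, this]
              exact K0.sub_mem hi2 hz2
            · have : g i - g z = (g i - x) - (g z - x) := by abel
              rw [SetLike.mem_coe, this]
              exact K.sub_mem hi1 hz1
          · exact Or.inl ⟨Finset.mem_univ _, hi1⟩
        have h4 : 2 * s * outl g (K0 ⊓ K) (g z) ≤ N * (K0 ⊓ K).index := by
          calc 2 * s * outl g (K0 ⊓ K) (g z) ≤ 2 * s * (outl g K x + outl g K0 x0) :=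
                Nat.mul_le_mul_left _ h3
            _ = 2 * s * outl g K x + 2 * s * outl g K0 x0 := by ring
            _ ≤ N * K.index + N * K0.index := Nat.add_le_add hKx hD'
            _ = N * (K.index + K0.index) := by ring
            _ ≤ N * (K0 ⊓ K).index := Nat.mul_le_mul_left _ (by omega)
        have h5 := hmax' _ _ h4
        have h6 := Nat.pos_of_ne_zero K0.index_ne_zero_of_finite
        omega
  have h1 := Finset.card_le_card hsub
  have h2 := hhalf K0 x0 hD'
  unfold outl at h2
  omega

theorem star {G A B : Type*} [AddCommGroup G] [Fintype G] [Fintype A] [Fintype B]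
    (f : A → B → G) (hA : Odd (Fintype.card A)) (hB : Odd (Fintype.card B))
    (hs : Fintype.card A + Fintype.card B = 2 * Fintype.card G) :
    ∃ (u : A) (v : B) (X : Finset A) (Y : Finset B), u ∉ X ∧ v ∉ Y ∧
      X.card + Y.card + 1 = Fintype.card G ∧
      f u v + ∑ x ∈ X, f x v + ∑ y ∈ Y, f u y = 0 := by
  classical
  by_contra hcon
  push Not at hcon
  set s := Fintype.card G with hsdef
  have hspos : 0 < s := Fintype.card_pos
  have hApos : 0 < Fintype.card A := hA.pos
  have hBpos : 0 < Fintype.card B := hB.pos
  -- every edge is covered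
  have hcov : ∀ u v, u ∈ covd (fun a => f a v) ∨ v ∈ covd (fun b => f u b) := by
    intro u v
    let W : {a : A // a ≠ u} ⊕ {b : B // b ≠ v} → G :=
      Sum.elim (fun a => f a.1 v) (fun b => f u b.1)
    have hcard : Fintype.card ({a : A // a ≠ u} ⊕ {b : B // b ≠ v}) = 2 * Fintype.card G - 2 := by
      rw [Fintype.card_sum, Fintype.card_subtype_compl, Fintype.card_subtype_compl,
        Fintype.card_subtype_eq, Fintype.card_subtype_eq]
      omega
    have hno : ∀ I : Finset ({a : A // a ≠ u} ⊕ {b : B // b ≠ v}),
        I.card = Fintype.card G - 1 → ∑ i ∈ I, (W i - f u v) ≠ 0 := by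
      intro I hI h0
      refine hcon u v (I.toLeft.map (Function.Embedding.subtype _))
        (I.toRight.map (Function.Embedding.subtype _)) ?_ ?_ ?_ ?_
      · intro h
        rw [Finset.mem_map] at h
        obtain ⟨a, _, ha⟩ := h
        exact a.2 ha
      · intro h
        rw [Finset.mem_map] at h
        obtain ⟨a, _, ha⟩ := h
        exact a.2 ha
      · rw [Finset.card_map, Finset.card_map, Finset.card_toLeft_add_card_toRight, hI]
        omega
      · rw [Finset.sum_map, Finset.sum_map]
        have h1 : ∑ i ∈ I, W i = ∑ i ∈ I.toLeft, f i.1 v + ∑ i ∈ I.toRight, f u i.1 := by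
          conv_lhs => rw [← Finset.toLeft_disjSum_toRight (u := I)]
          rw [Finset.sum_disjSum]
          rfl
        rw [Finset.sum_sub_distrib, Finset.sum_const, hI] at h0
        have h2 : (Fintype.card G - 1) • f u v + f u v = 0 := by
          rw [← succ_nsmul, Nat.sub_add_cancel hspos]
          exact card_nsmul_eq_zero
        have h3 : (Fintype.card G - 1) • f u v = - f u v := eq_neg_of_add_eq_zero_left h2
        rw [h3, sub_neg_eq_add, h1] at h0
        rw [← h0]
        simp only [Function.Embedding.coe_subtype]
        abel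
    obtain ⟨K, x, hx, hout⟩ := kl W (f u v) hcard hno
    have hsplit : outl (fun a => f a v) K x + outl (fun b => f u b) K x =
        (Finset.univ.filter (fun i => W i - x ∉ K)).card + 2 := by
      unfold outl
      rw [Finset.card_filter, Finset.card_filter, Finset.card_filter, Fintype.sum_sum_type,
        Fintype.sum_eq_add_sum_subtype_ne _ u, Fintype.sum_eq_add_sum_subtype_ne _ v,
        if_pos hx]
      simp only [W, Sum.elim_inl, Sum.elim_inr]
      ring_nf
    by_contra hneither
    push Not at hneither
    obtain ⟨h1, h2⟩ := hneither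
    unfold covd at h1 h2
    rw [Finset.mem_filter] at h1 h2
    push Not at h1 h2
    have h3 := h1 (Finset.mem_univ _) K x hx
    have h4 := h2 (Finset.mem_univ _) K x hx
    rw [← hsdef] at h3 h4
    have h5 : 2 * s * (outl (fun a => f a v) K x + outl (fun b => f u b) K x) ≤
        2 * s * K.index := Nat.mul_le_mul_left _ (by rw [hsplit]; exact hout)
    have h6 : (Fintype.card A + Fintype.card B) * K.index <
        2 * s * (outl (fun a => f a v) K x + outl (fun b => f u b) K x) := by
      rw [add_mul, mul_add]
      exact Nat.add_lt_add h3 h4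
    rw [hs] at h6
    omega
  -- counting
  have hcount : Fintype.card A * Fintype.card B ≤
      ∑ v : B, (covd (fun a => f a v)).card + ∑ u : A, (covd (fun b => f u b)).card := by
    have e1 : ∀ v : B, (covd (fun a => f a v)).card =
        ∑ u : A, if u ∈ covd (fun a => f a v) then 1 else 0 := by
      intro v
      rw [Finset.sum_boole, Nat.cast_id]
      congr 1
      ext a
      simp
    have e2 : ∀ u : A, (covd (fun b => f u b)).card =
        ∑ v : B, if v ∈ covd (fun b => f u b) then 1 else 0 := by
      intro u
      rw [Finset.sum_boole, Nat.cast_id]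
      congr 1
      ext a
      simp
    simp_rw [e1, e2]
    rw [Finset.sum_comm, ← Finset.sum_add_distrib]
    simp_rw [← Finset.sum_add_distrib]
    calc Fintype.card A * Fintype.card B = ∑ _u : A, ∑ _v : B, 1 := by
          simp
      _ ≤ _ := by
          refine Finset.sum_le_sum fun u _ => Finset.sum_le_sum fun v _ => ?_
          rcases hcov u v with h | h
          · rw [if_pos h]
            omega
          · rw [if_pos h]
            omega
  have h1 : ∑ v : B, (2 * (covd (fun a => f a v)).card + 1) ≤ ∑ _v : B, Fintype.card A :=
    Finset.sum_le_sum fun v _ => cov _ hA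
  have h2 : ∑ u : A, (2 * (covd (fun b => f u b)).card + 1) ≤ ∑ _u : A, Fintype.card B :=
    Finset.sum_le_sum fun u _ => cov _ hB
  rw [Finset.sum_add_distrib, ← Finset.mul_sum] at h1 h2
  simp only [Finset.sum_const, Finset.card_univ, smul_eq_mul, mul_one] at h1 h2
  have h3 : Fintype.card B * Fintype.card A = Fintype.card A * Fintype.card B := mul_comm _ _
  omega

end Pool.Agent.ZTR
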