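import Mathlib

/-!
# ZTR/Tree: double stars are trees
-/

namespace Pool.Agent.ZTR

open Finset

set_option linter.style.haveILetI false
set_option linter.unusedSectionVars false

variable {A B : Type*} [DecidableEq A] [DecidableEq B]

/-- the double star with centre `u v` and leaves `X` (at `v`), `Y` (at `u`) -/
def dstar (u : A) (v : B) (X : Finset A) (Y : Finset B) :
    (completeBipartiteGraph A B).Subgraph where
  verts := ((insert u X).disjSum (insert v Y) : Finset (A ⊕ B))
  Adj w w' := s(w, w') ∈ (insert u X).image (fun a => s(Sum.inl a, Sum.inr v)) ∪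
      Y.image (fun b => s(Sum.inl u, Sum.inr b))
  adj_sub := by
    intro w w' h
    rw [Finset.mem_union, Finset.mem_image, Finset.mem_image] at h
    rcases h with ⟨a, _, ha⟩ | ⟨b, _, hb⟩
    · rw [Sym2.eq_iff] at ha
      rcases ha with ⟨rfl, rfl⟩ | ⟨rfl, rfl⟩ <;> simp [completeBipartiteGraph]
    · rw [Sym2.eq_iff] at hb
      rcases hb with ⟨rfl, rfl⟩ | ⟨rfl, rfl⟩ <;> simp [completeBipartiteGraph]
  edge_vert := by
    intro w w' h
    rw [Finset.mem_union, Finset.mem_image, Finset.mem_image] at h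
    rw [Finset.mem_coe, Finset.mem_disjSum]
    rcases h with ⟨a, ha1, ha⟩ | ⟨b, hb1, hb⟩
    · rw [Sym2.eq_iff] at ha
      rcases ha with ⟨rfl, rfl⟩ | ⟨rfl, rfl⟩
      · exact Or.inl ⟨a, ha1, rfl⟩
      · exact Or.inr ⟨v, Finset.mem_insert_self _ _, rfl⟩
    · rw [Sym2.eq_iff] at hb
      rcases hb with ⟨rfl, rfl⟩ | ⟨rfl, rfl⟩
      · exact Or.inl ⟨u, Finset.mem_insert_self _ _, rfl⟩
      · exact Or.inr ⟨b, Finset.mem_insert_of_mem hb1, rfl⟩
  symm := ⟨by
    intro w w' h
    rwa [Sym2.eq_swap]⟩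

theorem dstar_edgeSet (u : A) (v : B) (X : Finset A) (Y : Finset B) :
    (dstar u v X Y).edgeSet = (((insert u X).image (fun a => s(Sum.inl a, Sum.inr v)) ∪
      Y.image (fun b => s(Sum.inl u, Sum.inr b)) : Finset (Sym2 (A ⊕ B))) : Set (Sym2 (A ⊕ B))) := by
  ext e
  induction e using Sym2.ind with
  | h w w' =>
    rw [SimpleGraph.Subgraph.mem_edgeSet]
    rfl

private theorem inj1 (v : B) : Function.Injective (fun a : A => (s(Sum.inl a, Sum.inr v) : Sym2 (A ⊕ B))) := by
  intro a a' h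
  simp only [Sym2.eq_iff] at h
  rcases h with ⟨h1, _⟩ | ⟨h1, _⟩
  · exact Sum.inl_injective h1
  · cases h1

private theorem inj2 (u : A) : Function.Injective (fun b : B => (s(Sum.inl u, Sum.inr b) : Sym2 (A ⊕ B))) := by
  intro b b' h
  simp only [Sym2.eq_iff] at h
  rcases h with ⟨_, h1⟩ | ⟨h1, _⟩
  · exact Sum.inr_injective h1
  · cases h1

private theorem disj (u : A) (v : B) (X : Finset A) (Y : Finset B) (hv : v ∉ Y) :
    Disjoint ((insert u X).image (fun a => (s(Sum.inl a, Sum.inr v) : Sym2 (A ⊕ B))))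
      (Y.image (fun b => (s(Sum.inl u, Sum.inr b) : Sym2 (A ⊕ B)))) := by
  rw [Finset.disjoint_left]
  intro e h1 h2
  rw [Finset.mem_image] at h1 h2
  obtain ⟨a, _, rfl⟩ := h1
  obtain ⟨b, hb, h3⟩ := h2
  simp only [Sym2.eq_iff] at h3
  rcases h3 with ⟨_, h1⟩ | ⟨h1, _⟩
  · exact hv (Sum.inr_injective h1 ▸ hb)
  · cases h1

theorem dstar_card (u : A) (v : B) (X : Finset A) (Y : Finset B) (hu : u ∉ X) (hv : v ∉ Y) :
    (dstar u v X Y).edgeSet.ncard = X.card + Y.card + 1 := by
  rw [dstar_edgeSet, Set.ncard_coe_finset, Finset.card_union_of_disjoint (disj u v X Y hv),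
    Finset.card_image_of_injective _ (inj1 v), Finset.card_image_of_injective _ (inj2 u),
    Finset.card_insert_of_notMem hu]
  omega

theorem dstar_sum {M : Type*} [AddCommMonoid M] (u : A) (v : B) (X : Finset A) (Y : Finset B)
    (hu : u ∉ X) (hv : v ∉ Y) (c : Sym2 (A ⊕ B) → M) :
    ∑ᶠ e ∈ (dstar u v X Y).edgeSet, c e = c s(Sum.inl u, Sum.inr v) +
      ∑ x ∈ X, c s(Sum.inl x, Sum.inr v) + ∑ y ∈ Y, c s(Sum.inl u, Sum.inr y) := by
  rw [dstar_edgeSet, finsum_mem_coe_finset, Finset.sum_union (disj u v X Y hv),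
    Finset.sum_image (fun a _ b _ h => inj1 v h), Finset.sum_image (fun a _ b _ h => inj2 u h),
    Finset.sum_insert hu]

theorem dstar_isTree (u : A) (v : B) (X : Finset A) (Y : Finset B) (hu : u ∉ X) (hv : v ∉ Y) :
    (dstar u v X Y).coe.IsTree := by
  have hverts : (dstar u v X Y).verts = (((insert u X).disjSum (insert v Y) : Finset (A ⊕ B)) :
      Set (A ⊕ B)) := rfl
  haveI : Finite (dstar u v X Y).verts := by
    rw [hverts]
    exact Finset.finite_toSet _
  rw [SimpleGraph.isTree_iff_connected_and_card]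
  have hmu : (Sum.inl u : A ⊕ B) ∈ (dstar u v X Y).verts := by
    rw [hverts, Finset.mem_coe, Finset.mem_disjSum]
    exact Or.inl ⟨u, Finset.mem_insert_self _ _, rfl⟩
  have hmv : (Sum.inr v : A ⊕ B) ∈ (dstar u v X Y).verts := by
    rw [hverts, Finset.mem_coe, Finset.mem_disjSum]
    exact Or.inr ⟨v, Finset.mem_insert_self _ _, rfl⟩
  have hadj : ∀ w w', (dstar u v X Y).Adj w w' ↔
      s(w, w') ∈ (insert u X).image (fun a => s(Sum.inl a, Sum.inr v)) ∪
        Y.image (fun b => s(Sum.inl u, Sum.inr b)) := fun _ _ => Iff.rfl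
  have h1 : ∀ a (ha : (Sum.inl a : A ⊕ B) ∈ (dstar u v X Y).verts),
      (dstar u v X Y).coe.Reachable ⟨Sum.inr v, hmv⟩ ⟨Sum.inl a, ha⟩ := by
    intro a ha
    refine SimpleGraph.Adj.reachable ?_
    rw [SimpleGraph.Subgraph.coe_adj, hadj, Sym2.eq_swap, Finset.mem_union]
    left
    refine Finset.mem_image_of_mem _ ?_
    rw [hverts, Finset.mem_coe, Finset.mem_disjSum] at ha
    rcases ha with ⟨a', ha', h⟩ | ⟨b', _, h⟩
    · rwa [← Sum.inl_injective h]
    · cases h
  constructor
  · rw [SimpleGraph.connected_iff_exists_forall_reachable]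
    refine ⟨⟨Sum.inr v, hmv⟩, ?_⟩
    rintro ⟨w, hw⟩
    rcases w with a | b
    · exact h1 a hw
    · by_cases hbv : b = v
      · subst hbv
        exact SimpleGraph.Reachable.refl _
      · refine (h1 u hmu).trans (SimpleGraph.Adj.reachable ?_)
        rw [SimpleGraph.Subgraph.coe_adj, hadj, Finset.mem_union]
        right
        refine Finset.mem_image_of_mem _ ?_
        rw [hverts, Finset.mem_coe, Finset.mem_disjSum] at hw
        rcases hw with ⟨a', _, h⟩ | ⟨b', hb', h⟩
        · cases h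
        · rw [Sum.inr_injective h] at hb'
          exact (Finset.mem_insert.1 hb').resolve_left hbv
  · have e1 : Nat.card (dstar u v X Y).coe.edgeSet = X.card + Y.card + 1 := by
      rw [← dstar_card u v X Y hu hv, Nat.card_coe_set_eq,
        ← SimpleGraph.Subgraph.image_coe_edgeSet_coe,
        Set.ncard_image_of_injective _ (Sym2.map.injective Subtype.val_injective)]
    have e2 : Nat.card (dstar u v X Y).verts = X.card + Y.card + 2 := by
      rw [Nat.card_coe_set_eq, hverts, Set.ncard_coe_finset, Finset.card_disjSum,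
        Finset.card_insert_of_notMem hu, Finset.card_insert_of_notMem hv]
      omega
    rw [e1, e2]

end Pool.Agent.ZTR
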