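import Pool.Agent.ZTR.Pairing

/-!
# ZTR/Kl: families of length `2 s - 2` in a group of order `s` without a zero-sum subfamily of length `s - 1`
(after translation by `c`)

Then all but at most `[G : K] - 2` members are in one coset of a proper subgroup `K` which does not
contain `c`.
-/

namespace Pool.Agent.ZTR

open Finset

set_option linter.style.haveILetI false

/-- all elements are sums of differences of the pairs -/
private theorem pair_sums {G ι : Type*} [AddCommGroup G] [Fintype G] (W : ι → G) {k : ℕ}
    (p : Fin k × Bool → ι) (h : ∀ K : AddSubgroup G, K ≠ ⊤ → K.index ≤ nsp W p K + 1) (g : G) :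
    ∃ J : Finset (Fin k), ∑ j ∈ J, (W (p (j, true)) - W (p (j, false))) = g := by
  classical
  obtain ⟨J, _, hJ⟩ := subset_sums Finset.univ (fun j : Fin k => W (p (j, true)) - W (p (j, false)))
    (fun K hK => by
      refine (h K hK).trans (Nat.add_le_add_right (le_of_eq ?_) 1)
      unfold nsp sp
      rw [Finset.card_filter]
      refine Finset.sum_congr rfl fun j _ => ?_
      by_cases hh : W (p (j, true)) - W (p (j, false)) ∈ K
      · rw [if_pos hh, if_neg (not_not.2 hh)]
      · rw [if_neg hh, if_pos hh]) g
  exact ⟨J, hJ⟩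

/-- subfamilies with `r` members, `|G| - 1 ≤ r ≤ |ι| - (|G| - 1)`, have all sums -/
private theorem all_sums {G ι : Type*} [AddCommGroup G] [Fintype G] [Fintype ι] (W : ι → G)
    {k : ℕ} (p : Fin k × Bool ↪ ι)
    (h : ∀ K : AddSubgroup G, K ≠ ⊤ → K.index ≤ nsp W p K + 1) (r : ℕ)
    (hr1 : k ≤ r) (hr2 : r + k ≤ Fintype.card ι) (g : G) :
    ∃ I : Finset ι, I.card = r ∧ ∑ i ∈ I, W i = g := by
  classical
  have hrange : (Finset.univ.image p).card = 2 * k := by
    rw [Finset.card_image_of_injective _ p.injective, Finset.card_univ, Fintype.card_prod,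
      Fintype.card_fin, Fintype.card_bool, mul_comm]
  have hcompl : r - k ≤ (Finset.univ.image p)ᶜ.card := by
    rw [Finset.card_compl, hrange]
    omega
  obtain ⟨E, hE, hEc⟩ := Finset.exists_subset_card_eq hcompl
  obtain ⟨J, hJ⟩ := pair_sums W p h
    (g - ∑ i ∈ E, W i - ∑ j : Fin k, W (p (j, false)))
  set f : Fin k → ι := fun j => p (j, decide (j ∈ J)) with hf
  have hfinj : Function.Injective f := by
    intro a b hab
    have := p.injective hab
    exact (Prod.ext_iff.1 this).1
  have hdisj : Disjoint E (Finset.univ.image f) := by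
    rw [Finset.disjoint_left]
    intro i hi hi2
    have h1 := hE hi
    rw [Finset.mem_compl] at h1
    apply h1
    rw [Finset.mem_image] at hi2 ⊢
    obtain ⟨j, _, rfl⟩ := hi2
    exact ⟨_, Finset.mem_univ _, rfl⟩
  refine ⟨E ∪ Finset.univ.image f, ?_, ?_⟩
  · rw [Finset.card_union_of_disjoint hdisj, hEc, Finset.card_image_of_injective _ hfinj,
      Finset.card_univ, Fintype.card_fin]
    omega
  · rw [Finset.sum_union hdisj, Finset.sum_image (fun a _ b _ hab => hfinj hab)]
    have h1 : ∀ j : Fin k, W (f j) = W (p (j, false)) +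
        (if j ∈ J then W (p (j, true)) - W (p (j, false)) else 0) := by
      intro j
      by_cases hj : j ∈ J
      · simp [hf, hj]
      · simp [hf, hj]
    rw [Finset.sum_congr rfl fun j _ => h1 j, Finset.sum_add_distrib, Finset.sum_ite_mem,
      Finset.univ_inter, hJ]
    abel

open Classical in
theorem kl {G ι : Type*} [AddCommGroup G] [Fintype G] [Fintype ι] (W : ι → G) (c : G)
    (hι : Fintype.card ι = 2 * Fintype.card G - 2)
    (hno : ∀ I : Finset ι, I.card = Fintype.card G - 1 → ∑ i ∈ I, (W i - c) ≠ 0) :
    ∃ K : AddSubgroup G, ∃ x : G, c - x ∉ K ∧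
      (Finset.univ.filter (fun i => W i - x ∉ K)).card + 2 ≤ K.index := by
  by_contra hcon
  push Not at hcon
  have hP : ∀ (K : AddSubgroup G) (x : G),
      (Finset.univ.filter (fun i => W i - x ∉ K)).card + 2 ≤ K.index → c - x ∈ K := by
    intro K x h1
    by_contra h2
    have := hcon K x h2
    omega
  have hne : ({K : AddSubgroup G | K = ⊤ ∨
      (Finset.univ.filter (fun i => W i - c ∉ K)).card + 2 ≤ K.index} :
      Set (AddSubgroup G)).Nonempty := ⟨⊤, Or.inl rfl⟩
  haveI : Finite (AddSubgroup G) := inferInstance
  obtain ⟨H, hHmin⟩ := (Set.toFinite _).exists_minimal hne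
  have hH := hHmin.1
  have hHm : ∀ K : AddSubgroup G,
      (Finset.univ.filter (fun i => W i - c ∉ K)).card + 2 ≤ K.index → K ≤ H → H ≤ K :=
    fun K hK hle => hHmin.2 (Or.inr hK) hle
  set o := (Finset.univ.filter (fun i => W i - c ∉ H)).card with ho
  have hHd : (o = 0 ∧ H.index = 1) ∨ o + 2 ≤ H.index := by
    rcases hH with h1 | h1
    · left
      constructor
      · rw [ho, Finset.card_eq_zero, Finset.filter_eq_empty_iff]
        intro i _
        rw [h1]
        simp
      · rw [h1, AddSubgroup.index_top]
    · exact Or.inr h1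
  have hcardG : H.index * Fintype.card H = Fintype.card G := by
    have := AddSubgroup.index_mul_card H
    rwa [Nat.card_eq_fintype_card, Nat.card_eq_fintype_card] at this
  have hh : 1 ≤ Fintype.card H := Fintype.card_pos
  have hGpos : 1 ≤ Fintype.card G := Fintype.card_pos
  set d := H.index with hd
  set h := Fintype.card H with hhdef
  have hBcard : Fintype.card {i : ι // W i - c ∈ H} + o = Fintype.card ι := by
    rw [Fintype.card_subtype, ho, ← Finset.card_univ]
    exact Finset.card_filter_add_card_filter_not (fun i => W i - c ∈ H)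
  let W' : {i : ι // W i - c ∈ H} → H := fun i => ⟨W i - c, i.2⟩
  have hW' : ∀ i, ((W' i : H) : G) = W i - c := fun i => rfl
  have hcond : ∀ K' : AddSubgroup H, K' ≠ ⊤ → ∀ y : H,
      K'.index ≤ (Finset.univ.filter (fun i => W' i - y ∉ K')).card + 1 := by
    intro K' _ y
    by_contra hlt
    push Not at hlt
    set K : AddSubgroup G := K'.map H.subtype with hK
    have hKi : K.index = K'.index * d := AddSubgroup.index_map_subtype K'
    have hmemK : ∀ z : H, (z : G) ∈ K ↔ z ∈ K' := by
      intro z
      rw [hK, AddSubgroup.mem_map]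
      constructor
      · rintro ⟨w, hw, hwz⟩
        have : w = z := Subtype.ext hwz
        rwa [← this]
      · intro hz
        exact ⟨z, hz, rfl⟩
    have hKH : K ≤ H := AddSubgroup.map_subtype_le K'
    have hout : (Finset.univ.filter (fun i => W i - (c + y) ∉ K)).card ≤
        o + (Finset.univ.filter (fun i => W' i - y ∉ K')).card := by
      rw [ho, ← Finset.card_map (Function.Embedding.subtype _)
        (s := Finset.univ.filter (fun i => W' i - y ∉ K'))]
      refine (Finset.card_le_card ?_).trans (Finset.card_union_le _ _)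
      intro i hi
      rw [Finset.mem_filter] at hi
      rw [Finset.mem_union]
      by_cases hiH : W i - c ∈ H
      · right
        rw [Finset.mem_map]
        refine ⟨⟨i, hiH⟩, ?_, rfl⟩
        rw [Finset.mem_filter]
        refine ⟨Finset.mem_univ _, fun hc => hi.2 ?_⟩
        have h3 := (hmemK _).2 hc
        have h4 : ((W' ⟨i, hiH⟩ - y : H) : G) = W i - (c + y) := by
          rw [AddSubgroup.coe_sub, hW']
          abel
        rwa [h4] at h3
      · left
        rw [Finset.mem_filter]
        exact ⟨Finset.mem_univ _, hiH⟩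
    have hk2 : 2 ≤ K'.index := by omega
    have hsum : (Finset.univ.filter (fun i => W i - (c + y) ∉ K)).card + 2 ≤ K.index := by
      rw [hKi]
      rcases hHd with ⟨h1, h2⟩ | h1
      · rw [h2, mul_one]
        omega
      · have h3 : 2 ≤ d := by omega
        have h4 : K'.index + d ≤ K'.index * d := by nlinarith
        omega
    have hyK : c - (c + y) ∈ K := hP K _ hsum
    have hyK2 : (y : G) ∈ K := by
      have : (y : G) = -(c - (c + y)) := by abel
      rw [this]
      exact K.neg_mem hyK
    have hsame : (Finset.univ.filter (fun i => W i - c ∉ K)).card + 2 ≤ K.index := by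
      have hfc : Finset.univ.filter (fun i => W i - c ∉ K) =
          Finset.univ.filter (fun i => W i - (c + y) ∉ K) := by
        refine Finset.filter_congr fun i _ => ?_
        constructor
        · intro h5 h6
          apply h5
          have : W i - c = W i - (c + y) + y := by abel
          rw [this]
          exact K.add_mem h6 hyK2
        · intro h5 h6
          apply h5
          have : W i - (c + y) = W i - c - y := by abel
          rw [this]
          exact K.sub_mem h6 hyK2
      rw [hfc]
      exact hsum
    have hHK := hHm K hsame hKH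
    have hEq : K = H := le_antisymm hKH hHK
    rw [hEq] at hKi
    have hdpos : 0 < d := Nat.pos_of_ne_zero H.index_ne_zero_of_finite
    have : d * 2 ≤ K'.index * d := by nlinarith
    omega
  have hcd : 2 * (h - 1) ≤ Fintype.card {i : ι // W i - c ∈ H} ∧
      Fintype.card G - 1 + (h - 1) ≤ Fintype.card {i : ι // W i - c ∈ H} := by
    rcases hHd with ⟨h1, h2⟩ | h1
    · rw [h2, one_mul] at hcardG
      omega
    · have h3 : 2 ≤ d := by omega
      have h4 : d + h ≤ d * h + 1 := by nlinarith
      have h5 : h ≤ d * h := by nlinarith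
      omega
  obtain ⟨p, hp⟩ := pairing W' hcd.1 hcond
  have hGh : h - 1 ≤ Fintype.card G - 1 := by
    have hdpos : 0 < d := Nat.pos_of_ne_zero H.index_ne_zero_of_finite
    have : h ≤ d * h := by nlinarith
    omega
  obtain ⟨I, hI1, hI2⟩ := all_sums W' p hp (Fintype.card G - 1) hGh hcd.2 0
  refine hno (I.map (Function.Embedding.subtype _)) (by rw [Finset.card_map, hI1]) ?_
  rw [Finset.sum_map]
  have h6 : ((∑ i ∈ I, W' i : H) : G) = 0 := by rw [hI2]; rfl
  rw [AddSubgroup.val_finsetSum] at h6
  exact h6

end Pool.Agent.ZTR
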