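import Pool.Agent.ZTR.SubSums

/-!
# ZTR/Pairing: the pairing lemma

A family `W` of at least `2 (|G| - 1)` elements of a finite abelian group `G` such that every coset of a
proper subgroup `K` misses at least `[G : K] - 1` members contains `|G| - 1` disjoint pairs such
that for every proper subgroup `K` at least `[G : K] - 1` pairs are split by `K`.
-/

namespace Pool.Agent.ZTR

open Finset

set_option linter.style.haveILetI false

open Classical in
/-- `1` if `a`, `b` are in different cosets of `K` -/
noncomputable def sp {G ι : Type*} [AddCommGroup G] (W : ι → G) (K : AddSubgroup G) (a b : ι) : ℕ :=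
  if W a - W b ∈ K then 0 else 1

/-- the number of pairs of `p` which are split by `K` -/
noncomputable def nsp {G ι : Type*} [AddCommGroup G] (W : ι → G) {k : ℕ} (p : Fin k × Bool → ι)
    (K : AddSubgroup G) : ℕ := ∑ j : Fin k, sp W K (p (j, true)) (p (j, false))

section

variable {G ι : Type*} [AddCommGroup G] (W : ι → G)

private theorem sp_le (K : AddSubgroup G) (a b : ι) : sp W K a b ≤ 1 := by
  unfold sp
  split_ifs <;> omega

private theorem sp_comm (K : AddSubgroup G) (a b : ι) : sp W K a b = sp W K b a := by
  unfold sp
  have : W a - W b ∈ K ↔ W b - W a ∈ K := by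
    rw [← neg_sub, K.neg_mem_iff]
  by_cases h : W a - W b ∈ K
  · rw [if_pos h, if_pos (this.1 h)]
  · rw [if_neg h, if_neg (fun h' => h (this.2 h'))]

private theorem sp_eq_one {K : AddSubgroup G} {a b : ι} (h : W a - W b ∉ K) : sp W K a b = 1 := by
  unfold sp
  rw [if_neg h]

private theorem sp_eq_zero {K : AddSubgroup G} {a b : ι} (h : W a - W b ∈ K) : sp W K a b = 0 := by
  unfold sp
  rw [if_pos h]

private theorem two_sum {α : Type*} [Fintype α] [DecidableEq α] (F F' : α → ℕ) (a b : α) (hab : a ≠ b)
    (D E : ℕ) (h : ∀ j, j ≠ a → j ≠ b → F' j = F j) (h2 : F a + F b + D ≤ F' a + F' b + E) :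
    ∑ j, F j + D ≤ ∑ j, F' j + E := by
  have hb : b ∈ (Finset.univ : Finset α).erase a := Finset.mem_erase.2 ⟨hab.symm, Finset.mem_univ _⟩
  rw [← Finset.add_sum_erase _ F (Finset.mem_univ a), ← Finset.add_sum_erase _ F' (Finset.mem_univ a),
    ← Finset.add_sum_erase _ F hb, ← Finset.add_sum_erase _ F' hb]
  have : ∑ j ∈ ((Finset.univ : Finset α).erase a).erase b, F' j =
      ∑ j ∈ ((Finset.univ : Finset α).erase a).erase b, F j := by
    refine Finset.sum_congr rfl fun j hj => ?_
    rw [Finset.mem_erase, Finset.mem_erase] at hj
    exact h j hj.2.1 hj.1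
  omega

private theorem one_sum {α : Type*} [Fintype α] [DecidableEq α] (F F' : α → ℕ) (a : α)
    (D E : ℕ) (h : ∀ j, j ≠ a → F' j = F j) (h2 : F a + D ≤ F' a + E) :
    ∑ j, F j + D ≤ ∑ j, F' j + E := by
  rw [← Finset.add_sum_erase _ F (Finset.mem_univ a), ← Finset.add_sum_erase _ F' (Finset.mem_univ a)]
  have : ∑ j ∈ (Finset.univ : Finset α).erase a, F' j = ∑ j ∈ (Finset.univ : Finset α).erase a, F j := by
    refine Finset.sum_congr rfl fun j hj => ?_
    rw [Finset.mem_erase] at hj
    exact h j hj.1
  omega

/-- The effect of one exchange on the number of split pairs. -/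
private theorem exchange [DecidableEq ι] {k : ℕ} (p : Fin k × Bool ↪ ι) (H : AddSubgroup G) (j0 : Fin k)
    (hj0 : W (p (j0, true)) - W (p (j0, false)) ∈ H) (w : ι) (hw : W w - W (p (j0, false)) ∉ H)
    (hw' : (∀ z, p z ≠ w) ∨ ∃ j b, p (j, b) = w ∧ W (p (j, !b)) - W (p (j0, false)) ∉ H)
    (K : AddSubgroup G) (D E : ℕ)
    (hDE1 : D ≤ sp W K (p (j0, false)) w + E - sp W K (p (j0, true)) (p (j0, false)) ∧
      sp W K (p (j0, true)) (p (j0, false)) ≤ sp W K (p (j0, false)) w + E)
    (hDE2 : ∀ w' : ι, W w' - W (p (j0, false)) ∉ H →
      sp W K (p (j0, true)) (p (j0, false)) + sp W K w w' + D ≤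
        sp W K (p (j0, false)) w + sp W K (p (j0, true)) w' + E) :
    nsp W p K + D ≤ nsp W (p.trans (Equiv.swap (p (j0, true)) w).toEmbedding) K + E := by
  classical
  set x := p (j0, false) with hx
  set x' := p (j0, true) with hx'
  have hxx' : x ≠ x' := by
    intro h
    have := p.injective h
    simp at this
  have hwx : w ≠ x := by
    rintro rfl
    apply hw
    rw [sub_self]
    exact H.zero_mem
  have hwx' : w ≠ x' := by
    rintro rfl
    exact hw hj0
  have hq : ∀ z, (p.trans (Equiv.swap x' w).toEmbedding) z = Equiv.swap x' w (p z) := fun z => rfl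
  rcases hw' with hfree | ⟨j1, b1, hj1, hpar⟩
  · unfold nsp
    refine one_sum (fun j => sp W K (p (j, true)) (p (j, false)))
      (fun j => sp W K ((p.trans (Equiv.swap x' w).toEmbedding) (j, true))
        ((p.trans (Equiv.swap x' w).toEmbedding) (j, false))) j0 D E ?_ ?_
    · intro j hj
      simp only [hq]
      rw [Equiv.swap_apply_of_ne_of_ne, Equiv.swap_apply_of_ne_of_ne]
      · intro h
        have := p.injective h
        simp at this
      · exact hfree _
      · intro h
        have := p.injective h
        simp at this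
        exact hj this
      · exact hfree _
    · simp only [hq]
      rw [← hx', ← hx, Equiv.swap_apply_left, Equiv.swap_apply_of_ne_of_ne hxx' hwx.symm,
        sp_comm W K w x]
      omega
  · have hj10 : j0 ≠ j1 := by
      rintro rfl
      cases b1
      · exact hwx hj1.symm
      · exact hwx' hj1.symm
    have h2 := hDE2 _ hpar
    unfold nsp
    refine two_sum (fun j => sp W K (p (j, true)) (p (j, false)))
      (fun j => sp W K ((p.trans (Equiv.swap x' w).toEmbedding) (j, true))
        ((p.trans (Equiv.swap x' w).toEmbedding) (j, false))) j0 j1 hj10 D E ?_ ?_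
    · intro j hja hjb
      simp only [hq]
      rw [Equiv.swap_apply_of_ne_of_ne, Equiv.swap_apply_of_ne_of_ne]
      · intro h
        have := p.injective h
        simp at this
      · rw [← hj1]
        intro h
        have := p.injective h
        simp at this
        exact hjb this.1
      · intro h
        have := p.injective h
        simp at this
        exact hja this
      · rw [← hj1]
        intro h
        have := p.injective h
        simp at this
        exact hjb this.1
    · have hoth : Equiv.swap x' w (p (j1, !b1)) = p (j1, !b1) := by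
        rw [Equiv.swap_apply_of_ne_of_ne]
        · intro h
          have := p.injective h
          simp at this
          exact hj10 this.1.symm
        · rw [← hj1]
          intro h
          have := p.injective h
          simp at this
      have hthis : Equiv.swap x' w (p (j1, b1)) = x' := by
        rw [hj1, Equiv.swap_apply_right]
      simp only [hq]
      rw [← hx', ← hx, Equiv.swap_apply_left, Equiv.swap_apply_of_ne_of_ne hxx' hwx.symm,
        sp_comm W K w x]
      cases b1
      · rw [hthis]
        simp only [Bool.not_false] at hoth h2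
        rw [hoth, hj1, sp_comm W K (p (j1, true)) x', sp_comm W K (p (j1, true)) w]
        exact h2
      · rw [hthis]
        simp only [Bool.not_true] at hoth h2
        rw [hoth, hj1]
        exact h2

end

open Classical in
theorem pairing {G ι : Type*} [AddCommGroup G] [Fintype G] [Fintype ι] (W : ι → G)
    (hc : 2 * (Fintype.card G - 1) ≤ Fintype.card ι)
    (h : ∀ K : AddSubgroup G, K ≠ ⊤ → ∀ x : G,
      K.index ≤ (Finset.univ.filter (fun i => W i - x ∉ K)).card + 1) :
    ∃ p : Fin (Fintype.card G - 1) × Bool ↪ ι, ∀ K : AddSubgroup G, K ≠ ⊤ →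
      K.index ≤ nsp W p K + 1 := by
  set k := Fintype.card G - 1 with hk
  have hG : 0 < Fintype.card G := Fintype.card_pos
  haveI : Fintype (AddSubgroup G) := Fintype.ofFinite _
  haveI hne : Nonempty (Fin k × Bool ↪ ι) := by
    refine Function.Embedding.nonempty_of_card_le ?_
    rw [Fintype.card_prod, Fintype.card_fin, Fintype.card_bool]
    omega
  obtain ⟨p, hp⟩ := Finite.exists_max
    (fun p : Fin k × Bool ↪ ι => ∑ K : AddSubgroup G, min (nsp W p K) (K.index - 1))
  refine ⟨p, ?_⟩
  by_contra hcon
  have hbad : ({K : AddSubgroup G | nsp W p K + 2 ≤ K.index} : Set (AddSubgroup G)).Nonempty := by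
    push Not at hcon
    obtain ⟨K, _, hK⟩ := hcon
    exact ⟨K, by simp only [Set.mem_ofPred_eq]; omega⟩
  obtain ⟨H, hHmin⟩ := (Set.toFinite _).exists_minimal hbad
  have hH : nsp W p H + 2 ≤ H.index := hHmin.1
  have hHm : ∀ K : AddSubgroup G, nsp W p K + 2 ≤ K.index → K ≤ H → H ≤ K :=
    fun K hK hle => hHmin.2 hK hle
  have hHtop : H ≠ ⊤ := by
    rintro rfl
    rw [AddSubgroup.index_top] at hH
    omega
  have hle : ∀ K : AddSubgroup G, K.index ≤ Fintype.card G := by
    intro K
    have := K.index_dvd_card
    rw [Nat.card_eq_fintype_card] at this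
    exact Nat.le_of_dvd hG this
  have hpos : ∀ K : AddSubgroup G, 0 < K.index := fun K =>
    Nat.pos_of_ne_zero K.index_ne_zero_of_finite
  -- an unsplit pair
  have hun : ∃ j0, W (p (j0, true)) - W (p (j0, false)) ∈ H := by
    by_contra hno
    push Not at hno
    have : nsp W p H = k := by
      unfold nsp
      rw [Finset.sum_congr rfl fun j _ => sp_eq_one W (hno j)]
      simp
    have := hle H
    omega
  obtain ⟨j0, hj0⟩ := hun
  -- the partner of the exchange
  have hw : ∃ w, W w - W (p (j0, false)) ∉ H ∧ ((∀ z, p z ≠ w) ∨
      ∃ j b, p (j, b) = w ∧ W (p (j, !b)) - W (p (j0, false)) ∉ H) := by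
    by_contra hno
    push Not at hno
    have h1 := h H hHtop (W (p (j0, false)))
    have h2 : (Finset.univ.filter (fun i => W i - W (p (j0, false)) ∉ H)).card ≤ nsp W p H := by
      have h3 : nsp W p H = (Finset.univ.filter
          (fun j => W (p (j, true)) - W (p (j, false)) ∉ H)).card := by
        unfold nsp sp
        rw [Finset.card_filter]
        refine Finset.sum_congr rfl fun j _ => ?_
        by_cases hh : W (p (j, true)) - W (p (j, false)) ∈ H
        · rw [if_pos hh, if_neg (not_not.2 hh)]
        · rw [if_neg hh, if_pos hh]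
      rw [h3]
      refine (Finset.card_le_card (t := (Finset.univ.filter
          (fun j => W (p (j, true)) - W (p (j, false)) ∉ H)).image
          (fun j => if W (p (j, false)) - W (p (j0, false)) ∉ H then p (j, false)
            else p (j, true))) ?_).trans Finset.card_image_le
      intro w hw
      rw [Finset.mem_filter] at hw
      obtain ⟨⟨z, hz⟩, hz2⟩ := hno w hw.2
      obtain ⟨j, b⟩ := z
      have hz3 := hz2 j b hz
      rw [Finset.mem_image]
      refine ⟨j, ?_, ?_⟩
      · rw [Finset.mem_filter]
        refine ⟨Finset.mem_univ _, ?_⟩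
        intro hcon2
        apply hw.2
        cases b
        · simp only [Bool.not_false] at hz3
          rw [← hz]
          have : W (p (j, false)) - W (p (j0, false)) =
              (W (p (j, true)) - W (p (j0, false))) - (W (p (j, true)) - W (p (j, false))) := by abel
          rw [this]
          exact H.sub_mem hz3 hcon2
        · simp only [Bool.not_true] at hz3
          rw [← hz]
          have : W (p (j, true)) - W (p (j0, false)) =
              (W (p (j, false)) - W (p (j0, false))) + (W (p (j, true)) - W (p (j, false))) := by abel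
          rw [this]
          exact H.add_mem hz3 hcon2
      · cases b
        · simp only [Bool.not_false] at hz3
          rw [if_pos (by rw [hz]; exact hw.2), hz]
        · simp only [Bool.not_true] at hz3
          rw [if_neg (not_not.2 hz3), hz]
    omega
  obtain ⟨w, hw1, hw2⟩ := hw
  set q : Fin k × Bool ↪ ι := p.trans (Equiv.swap (p (j0, true)) w).toEmbedding with hq
  set x := p (j0, false) with hx
  set x' := p (j0, true) with hx'
  -- general effect
  have hgen : ∀ K : AddSubgroup G, nsp W p K + 0 ≤ nsp W q K + 2 := by
    intro K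
    have a1 := sp_le W K x' x
    refine exchange W p H j0 hj0 w hw1 hw2 K 0 2 ⟨by rw [← hx', ← hx]; omega, by
      rw [← hx', ← hx]; omega⟩ ?_
    intro w' _
    have := sp_le W K w w'
    rw [← hx', ← hx]
    omega
  have hdown : ∀ K : AddSubgroup G, K ≤ H → nsp W p K + 0 ≤ nsp W q K + 0 := by
    intro K hK
    have a0 : sp W K x w = 1 := by
      rw [sp_comm]
      exact sp_eq_one W (fun hh => hw1 (hK hh))
    have a1 := sp_le W K x' x
    refine exchange W p H j0 hj0 w hw1 hw2 K 0 0 ⟨by rw [← hx', ← hx]; omega, by
      rw [← hx', ← hx]; omega⟩ ?_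
    intro w' hw'
    have a2 := sp_le W K w w'
    have a3 : sp W K x' w' = 1 := by
      rw [sp_comm]
      refine sp_eq_one W (fun hh => hw' ?_)
      have : W w' - W (p (j0, false)) = (W w' - W x') + (W x' - W (p (j0, false))) := by abel
      rw [this]
      exact H.add_mem (hK hh) hj0
    rw [← hx', ← hx]
    omega
  have hstrict : nsp W p H + 1 ≤ nsp W q H + 0 := by
    have a0 : sp W H x w = 1 := by
      rw [sp_comm]
      exact sp_eq_one W hw1
    have a1 : sp W H x' x = 0 := sp_eq_zero W hj0
    refine exchange W p H j0 hj0 w hw1 hw2 H 1 0 ⟨by rw [← hx', ← hx]; omega, by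
      rw [← hx', ← hx]; omega⟩ ?_
    intro w' hw'
    have a2 := sp_le W H w w'
    have a3 : sp W H x' w' = 1 := by
      rw [sp_comm]
      refine sp_eq_one W (fun hh => hw' ?_)
      have : W w' - W (p (j0, false)) = (W w' - W x') + (W x' - W (p (j0, false))) := by abel
      rw [this]
      exact H.add_mem hh hj0
    rw [← hx', ← hx]
    omega
  have hup : ∀ K : AddSubgroup G, H ≤ K → nsp W p K + 0 ≤ nsp W q K + 0 := by
    intro K hK
    have a1 : sp W K x' x = 0 := sp_eq_zero W (hK hj0)
    refine exchange W p H j0 hj0 w hw1 hw2 K 0 0 ⟨by rw [← hx', ← hx]; omega, by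
      rw [← hx', ← hx]; omega⟩ ?_
    intro w' hw'
    rw [← hx', ← hx]
    have a2 : sp W K w w' ≤ sp W K x w + sp W K x' w' := by
      by_cases b1 : W x - W w ∈ K
      · by_cases b2 : W x' - W w' ∈ K
        · have : W w - W w' = -(W x - W w) + (W x' - W w') - (W x' - W x) := by abel
          rw [sp_eq_zero W (show W w - W w' ∈ K by
            rw [this]
            exact K.sub_mem (K.add_mem (K.neg_mem b1) b2) (hK hj0))]
          omega
        · rw [sp_eq_one W b2]
          have := sp_le W K w w'
          omega
      · rw [sp_eq_one W b1]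
        have := sp_le W K w w'
        omega
    omega
  -- incomparable subgroups
  have hinc : ∀ K : AddSubgroup G, ¬ K ≤ H → ¬ H ≤ K → K.index + 1 ≤ nsp W p K := by
    intro K hK1 hK2
    by_contra hlt
    push Not at hlt
    have hadd : nsp W p (H ⊓ K) ≤ nsp W p H + nsp W p K := by
      unfold nsp
      rw [← Finset.sum_add_distrib]
      refine Finset.sum_le_sum fun j _ => ?_
      by_cases b1 : W (p (j, true)) - W (p (j, false)) ∈ H
      · by_cases b2 : W (p (j, true)) - W (p (j, false)) ∈ K
        · rw [sp_eq_zero W (show W (p (j, true)) - W (p (j, false)) ∈ H ⊓ K from ⟨b1, b2⟩)]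
          omega
        · rw [sp_eq_one W b2]
          have := sp_le W (H ⊓ K) (p (j, true)) (p (j, false))
          omega
      · rw [sp_eq_one W b1]
        have := sp_le W (H ⊓ K) (p (j, true)) (p (j, false))
        omega
    have hi1 : 2 * H.index ≤ (H ⊓ K).index := by
      rw [← AddSubgroup.relIndex_mul_index (inf_le_left : H ⊓ K ≤ H)]
      refine Nat.mul_le_mul_right _ ?_
      have r0 : (H ⊓ K).relIndex H ≠ 0 := by
        intro r
        have := AddSubgroup.relIndex_mul_index (inf_le_left : H ⊓ K ≤ H)
        rw [r, zero_mul] at this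
        exact (hpos (H ⊓ K)).ne this
      have r1 : (H ⊓ K).relIndex H ≠ 1 := by
        intro r
        rw [AddSubgroup.relIndex_eq_one] at r
        exact hK2 (r.trans inf_le_right)
      omega
    have hi2 : 2 * K.index ≤ (H ⊓ K).index := by
      rw [← AddSubgroup.relIndex_mul_index (inf_le_right : H ⊓ K ≤ K)]
      refine Nat.mul_le_mul_right _ ?_
      have r0 : (H ⊓ K).relIndex K ≠ 0 := by
        intro r
        have := AddSubgroup.relIndex_mul_index (inf_le_right : H ⊓ K ≤ K)
        rw [r, zero_mul] at this
        exact (hpos (H ⊓ K)).ne this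
      have r1 : (H ⊓ K).relIndex K ≠ 1 := by
        intro r
        rw [AddSubgroup.relIndex_eq_one] at r
        exact hK1 (r.trans inf_le_left)
      omega
    have := hHm (H ⊓ K) (by omega) inf_le_left
    exact hK2 (this.trans inf_le_right)
  -- the potential increases
  have hlt : ∑ K : AddSubgroup G, min (nsp W p K) (K.index - 1) <
      ∑ K : AddSubgroup G, min (nsp W q K) (K.index - 1) := by
    refine Finset.sum_lt_sum ?_ ⟨H, Finset.mem_univ _, ?_⟩
    · intro K _
      by_cases c1 : K ≤ H
      · have := hdown K c1
        omega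
      · by_cases c2 : H ≤ K
        · have := hup K c2
          omega
        · have := hinc K c1 c2
          have := hgen K
          omega
    · omega
  exact absurd (hp q) (not_le.2 hlt)

end Pool.Agent.ZTR
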