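import Mathlib

/-!
# ZTR/SubSums: subset sums of a family in a finite abelian group

If for every proper subgroup `K` at least `[G : K] - 1` members of the family are outside `K`, every element
of `G` is a subset sum (Kneser's theorem for sets with two elements).
-/

namespace Pool.Agent.ZTR

open Finset
open scoped Pointwise

set_option linter.style.haveILetI false

open Classical in
theorem subset_sums {G ι : Type*} [AddCommGroup G] [Fintype G]
    (I : Finset ι) (d : ι → G)
    (h : ∀ K : AddSubgroup G, K ≠ ⊤ → K.index ≤ (I.filter (fun i => d i ∉ K)).card + 1) (g : G) :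
    ∃ J ⊆ I, ∑ i ∈ J, d i = g := by
  by_contra hcon
  set S : Set G := {x | ∃ J ⊆ I, ∑ i ∈ J, d i = x} with hS
  have hgS : g ∉ S := hcon
  set K : AddSubgroup G := AddAction.stabilizer G S with hK
  have hKmem : ∀ k ∈ K, ∀ x ∈ S, k + x ∈ S := by
    intro k hk x hx
    have h1 : k +ᵥ S = S := AddAction.mem_stabilizer_iff.1 hk
    rw [← h1]
    exact Set.vadd_mem_vadd_set hx
  have h0S : (0 : G) ∈ S := ⟨∅, Finset.empty_subset _, by simp⟩
  have hKtop : K ≠ ⊤ := by
    intro ht
    apply hgS
    have := hKmem g (by rw [ht]; trivial) 0 h0S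
    rwa [add_zero] at this
  have hidx : K.index ≤ (I.filter (fun i => d i ∉ K)).card + 1 := by
    convert h K hKtop
  let π : G → G ⧸ K := fun x => (x : G ⧸ K)
  let T : Finset ι → Finset (G ⧸ K) := fun I' => I'.powerset.image (fun J => π (∑ i ∈ J, d i))
  have hT : ∀ I' ⊆ I, 1 + (I'.filter (fun i => d i ∉ K)).card ≤ (T I').card := by
    intro I'
    induction I' using Finset.induction_on with
    | empty =>
      intro _
      simp [T]
    | insert i I' hi ih =>
      intro hsub
      have hI' : I' ⊆ I := fun j hj => hsub (Finset.mem_insert_of_mem hj)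
      have hiI : i ∈ I := hsub (Finset.mem_insert_self _ _)
      have ih' := ih hI'
      have hmono : T I' ⊆ T (insert i I') := by
        intro t ht
        simp only [T, Finset.mem_image, Finset.mem_powerset] at ht ⊢
        obtain ⟨J, hJ, rfl⟩ := ht
        exact ⟨J, fun j hj => Finset.mem_insert_of_mem (hJ hj), rfl⟩
      by_cases hdi : d i ∈ K
      · rw [Finset.filter_insert, if_neg (not_not.2 hdi)]
        exact ih'.trans (Finset.card_le_card hmono)
      · rw [Finset.filter_insert, if_pos hdi, Finset.card_insert_of_notMem (by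
          intro h'
          exact hi (Finset.mem_filter.1 h').1)]
        by_contra hlt
        have hle : (T (insert i I')).card ≤ (T I').card := by omega
        have heq : T I' = T (insert i I') := Finset.eq_of_subset_of_card_le hmono hle
        apply hdi
        rw [hK, AddAction.mem_stabilizer_set_iff_vadd_set_subset S.toFinite]
        rintro _ ⟨x, ⟨J, hJ, rfl⟩, rfl⟩
        change d i + ∑ j ∈ J, d j ∈ S
        have hmem : π (d i + ∑ j ∈ J ∩ I', d j) ∈ T I' := by
          rw [heq]
          simp only [T, Finset.mem_image, Finset.mem_powerset]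
          refine ⟨insert i (J ∩ I'), Finset.insert_subset_insert _ Finset.inter_subset_right, ?_⟩
          rw [Finset.sum_insert (by
            intro h'
            exact hi (Finset.mem_inter.1 h').2)]
        simp only [T, Finset.mem_image, Finset.mem_powerset] at hmem
        obtain ⟨J', hJ', hJeq⟩ := hmem
        have hk : -(∑ j ∈ J', d j) + (d i + ∑ j ∈ J ∩ I', d j) ∈ K :=
          QuotientAddGroup.eq.1 hJeq
        have hx : ∑ j ∈ J' ∪ (J \ I'), d j ∈ S :=
          ⟨J' ∪ (J \ I'), Finset.union_subset (hJ'.trans hI') (Finset.sdiff_subset.trans hJ), rfl⟩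
        have hdisj : Disjoint J' (J \ I') := by
          rw [Finset.disjoint_left]
          intro j hj hj'
          exact (Finset.mem_sdiff.1 hj').2 (hJ' hj)
        have h2 := hKmem _ hk _ hx
        have h3 : ∑ j ∈ J, d j = ∑ j ∈ J ∩ I', d j + ∑ j ∈ J \ I', d j := by
          rw [Finset.sum_inter_add_sum_sdiff]
        rw [Finset.sum_union hdisj] at h2
        rw [h3]
        convert h2 using 1
        abel
  have hTI := hT I subset_rfl
  have hne : T I ≠ Finset.univ := by
    intro hall
    apply hgS
    have hg : π g ∈ T I := by rw [hall]; exact Finset.mem_univ _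
    simp only [T, Finset.mem_image, Finset.mem_powerset] at hg
    obtain ⟨J, hJ, hJeq⟩ := hg
    have hk : -(∑ j ∈ J, d j) + g ∈ K := QuotientAddGroup.eq.1 hJeq
    have := hKmem _ hk (∑ j ∈ J, d j) ⟨J, hJ, rfl⟩
    rwa [neg_add_cancel_comm] at this
  have hlt : (T I).card < Fintype.card (G ⧸ K) := by
    rw [← Finset.card_univ]
    exact Finset.card_lt_card (Finset.ssubset_univ_iff.2 hne)
  have hind : K.index = Fintype.card (G ⧸ K) := by
    rw [AddSubgroup.index, Nat.card_eq_fintype_card]
  omega

end Pool.Agent.ZTR
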